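import Mathlib

set_option autoImplicit false

namespace Pool.Agent.Results.MP_95a65f_co.Exact

open SimpleGraph Finset

def IsTDS {V : Type} (G : SimpleGraph V) (S : Finset V) : Prop := ∀ v, ∃ s ∈ S, G.Adj v s

noncomputable def gammaT {V : Type} (G : SimpleGraph V) : ℕ :=
  sInf {n | ∃ S : Finset V, IsTDS G S ∧ S.card = n}

noncomputable def distSum {V : Type} (G : SimpleGraph V) {r : ℕ} (x : Fin r → V) : ℕ :=
  ∑ p ∈ (univ : Finset (Fin r × Fin r)).filter (fun p => p.1 < p.2), G.dist (x p.1) (x p.2)

def Admissible (r : ℕ) (c : ℝ) : Prop :=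
  ∀ (V : Type) [Fintype V] [Nontrivial V] (G : SimpleGraph V), G.Connected →
    ∀ x : Fin r → V, c * (distSum G x : ℝ) ≤ gammaT G

theorem two_distSum {V : Type} (G : SimpleGraph V) {r : ℕ} (x : Fin r → V) :
    ∑ i, ∑ j, G.dist (x i) (x j) = 2 * distSum G x := by
  have h : ∀ i j : Fin r, G.dist (x i) (x j) =
      (if i < j then G.dist (x i) (x j) else 0) + (if j < i then G.dist (x j) (x i) else 0) := by
    intro i j
    rcases lt_trichotomy i j with h | rfl | h
    · simp [h, lt_asymm h]
    · simp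
    · simp [h, lt_asymm h, G.dist_comm]
  have h2 : distSum G x = ∑ i, ∑ j, if i < j then G.dist (x i) (x j) else 0 := by
    rw [distSum, sum_filter, Fintype.sum_prod_type]
  rw [sum_congr rfl (fun i _ => sum_congr rfl (fun j _ => h i j))]
  simp only [sum_add_distrib]
  rw [sum_comm (f := fun i j : Fin r => if j < i then G.dist (x j) (x i) else 0), ← h2]
  ring

theorem cut_count {r : ℕ} (P : Fin r → Prop) [DecidablePred P] :
    ∑ i, ∑ j, (if (P i ↔ P j) then 0 else 1) =
      2 * ((univ.filter P).card * (r - (univ.filter P).card)) := by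
  have h1 := card_filter_add_card_filter_not (s := (univ : Finset (Fin r))) P
  rw [card_univ, Fintype.card_fin] at h1
  have h2 : ∀ i, ∑ j, (if (P i ↔ P j) then 0 else 1) =
      if P i then (univ.filter (fun j => ¬ P j)).card else (univ.filter P).card := by
    intro i
    by_cases h : P i
    · simp only [h, true_iff, if_true, card_filter]
      exact sum_congr rfl (fun j _ => by by_cases P j <;> simp [*])
    · simp only [h, false_iff, if_false, card_filter]
      exact sum_congr rfl (fun j _ => by by_cases P j <;> simp [*])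
  rw [sum_congr rfl (fun i _ => h2 i), sum_ite]
  simp only [sum_const, smul_eq_mul]
  rw [show r - (univ.filter P).card = (univ.filter (fun j => ¬ P j)).card by omega]
  ring

theorem cut_le (r t : ℕ) : t * (r - t) ≤ r ^ 2 / 4 := by
  rw [Nat.le_div_iff_mul_le (by norm_num)]
  rcases le_total t r with h | h
  · obtain ⟨d, rfl⟩ := Nat.exists_eq_add_of_le h
    rw [Nat.add_sub_cancel_left]
    nlinarith [sq_nonneg ((t : ℤ) - d)]
  · simp [Nat.sub_eq_zero_of_le h]

def L {V : Type} (G : SimpleGraph V) (r : ℕ) (A : Finset V) (W : ℕ) : Prop :=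
  ∀ s : Fin r → V, (∀ i, s i ∈ A) → ∑ i, ∑ j, G.dist (s i) (s j) ≤ 2 * (r ^ 2 / 4) * W

theorem L_insert {V : Type} [DecidableEq V] {G : SimpleGraph V} (hG : G.Connected) {r : ℕ}
    {A : Finset V} {W w : ℕ} (h : L G r A W) {y a : V} (ha : a ∈ A) (hd : G.dist y a ≤ w) :
    L G r (insert y A) (W + w) := by
  intro s hs
  have h1 := h (fun i => if s i = y then a else s i) (fun i => by
    by_cases hi : s i = y
    · simp [hi, ha]
    · simpa [hi] using hs i)
  have h2 : ∀ i j, G.dist (s i) (s j) ≤
      G.dist (if s i = y then a else s i) (if s j = y then a else s j) +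
        w * (if (s i = y ↔ s j = y) then 0 else 1) := by
    intro i j
    by_cases hi : s i = y <;> by_cases hj : s j = y
    · simp [hi, hj]
    · have := hG.dist_triangle (u := y) (v := a) (w := s j)
      simp only [hi, hj, if_true, if_false, true_iff]
      omega
    · have := hG.dist_triangle (u := s i) (v := a) (w := y)
      rw [G.dist_comm (u := a)] at this
      simp only [hi, hj, if_true, if_false, iff_true]
      omega
    · simp [hi, hj]
  have h3 := sum_le_sum (s := univ) (fun i _ => sum_le_sum (s := univ) (fun j _ => h2 i j))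
  simp only [sum_add_distrib, ← mul_sum] at h3
  rw [cut_count (fun i => s i = y)] at h3
  have h4 := cut_le r (univ.filter (fun i => s i = y)).card
  nlinarith

theorem grow {V : Type} [DecidableEq V] {G : SimpleGraph V} (hG : G.Connected) (r : ℕ)
    {S : Finset V} (hS : IsTDS G S) : ∀ (m : ℕ) (A : Finset V), (S \ A).card ≤ m → A ⊆ S →
      2 ≤ A.card → L G r A (2 * A.card - 3) → L G r S (2 * S.card - 3) := by
  intro m
  induction m with
  | zero =>
    intro A hm hA _ h
    have : S ⊆ A := sdiff_eq_empty_iff_subset.1 (card_eq_zero.1 (by omega))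
    rwa [← Subset.antisymm hA this]
  | succ m ih =>
    intro A hm hA h2 h
    have hc := card_sdiff_add_card_eq_card hA
    by_cases hn : ∃ y ∈ S, y ∉ A ∧ ∃ a ∈ A, G.dist y a ≤ 2
    · obtain ⟨y, hy, hyA, a, ha, hd⟩ := hn
      have hsub : insert y A ⊆ S := insert_subset hy hA
      have hc' := card_sdiff_add_card_eq_card hsub
      have hci := card_insert_of_notMem hyA
      refine ih (insert y A) (by omega) hsub (by omega) ?_
      have := L_insert hG h ha hd
      rwa [show 2 * (insert y A).card - 3 = 2 * A.card - 3 + 2 by omega]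
    push Not at hn
    by_cases hall : ∀ v, ∃ a ∈ A, G.Adj v a
    · refine ih A ?_ hA h2 h
      have : S \ A = ∅ := by
        rw [sdiff_eq_empty_iff_subset]
        intro y hy
        by_contra hyA
        obtain ⟨a, ha, hadj⟩ := hall y
        have := hn y hy hyA a ha
        rw [dist_eq_one_iff_adj.2 hadj] at this
        omega
      simp [this]
    push Not at hall
    obtain ⟨v, hv⟩ := hall
    obtain ⟨a0, ha0⟩ : A.Nonempty := card_pos.1 (by omega)
    obtain ⟨u, -, hu⟩ := hS a0
    have key : ∀ {p q : V} (_ : G.Walk p q), (∃ a ∈ A, G.Adj p a) → (∀ a ∈ A, ¬ G.Adj q a) →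
        ∃ p p', G.Adj p p' ∧ (∃ a ∈ A, G.Adj p a) ∧ ∀ a ∈ A, ¬ G.Adj p' a := by
      intro p q w
      induction w with
      | nil => rintro ⟨a, ha, h⟩ h'; exact absurd h (h' a ha)
      | @cons p p' q hp _ ih' =>
        intro h1 h2
        by_cases h3 : ∃ a ∈ A, G.Adj p' a
        · exact ih' h3 h2
        · push Not at h3
          exact ⟨p, p', hp, h1, h3⟩
    obtain ⟨w⟩ := hG.preconnected u v
    obtain ⟨p, p', hp, ⟨a, ha, hpa⟩, hp'⟩ := key w ⟨a0, ha0, hu.symm⟩ hv
    obtain ⟨y, hy, hpy⟩ := hS p'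
    have hyA : y ∉ A := fun h => hp' y h hpy
    have hd : G.dist y a ≤ 3 := by
      have := dist_le (Walk.cons hpy.symm (Walk.cons hp.symm (Walk.cons hpa Walk.nil)))
      simpa using this
    obtain ⟨y', hy', hyy⟩ := hS y
    have hy'A : y' ∉ insert y A := by
      rw [mem_insert]
      rintro (rfl | h')
      · exact hyy.ne rfl
      · have := hn y hy hyA y' h'
        rw [dist_eq_one_iff_adj.2 hyy] at this
        omega
    have hsub : insert y' (insert y A) ⊆ S := insert_subset hy' (insert_subset hy hA)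
    have hc' := card_sdiff_add_card_eq_card hsub
    have hci := card_insert_of_notMem hyA
    have hci' := card_insert_of_notMem hy'A
    refine ih _ (by omega) hsub (by omega) ?_
    have := L_insert hG (L_insert hG h ha hd) (mem_insert_self y A)
      (dist_eq_one_iff_adj.2 hyy.symm).le
    rwa [show 2 * (insert y' (insert y A)).card - 3 = 2 * A.card - 3 + 3 + 1 by omega]

theorem offdiag (r : ℕ) : ∑ i : Fin r, ∑ j : Fin r, (if i = j then 0 else 2) = 2 * (r * (r - 1)) := by
  have : ∀ i : Fin r, ∑ j : Fin r, (if i = j then 0 else 2) = 2 * (r - 1) := by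
    intro i
    rw [sum_ite]
    simp [filter_ne, mul_comm]
  simp only [this, sum_const, card_univ, Fintype.card_fin, smul_eq_mul]
  ring

theorem upper {V : Type} {G : SimpleGraph V} (hG : G.Connected) {r : ℕ} (hr : 3 ≤ r)
    {S : Finset V} (hS : IsTDS G S) (x : Fin r → V) :
    2 * distSum G x ≤ S.card * (r ^ 2 / 4 + r * (r - 1)) := by
  classical
  choose f hf1 hf2 using hS
  have hS : IsTDS G S := fun v => ⟨f v, hf1 v, hf2 v⟩
  obtain ⟨v⟩ := hG.nonempty
  have hne : f (f v) ∉ ({f v} : Finset V) := by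
    rw [mem_singleton]; exact (hf2 (f v)).ne'
  have hsub : insert (f (f v)) {f v} ⊆ S := insert_subset (hf1 _) (singleton_subset_iff.2 (hf1 _))
  have hc : (insert (f (f v)) ({f v} : Finset V)).card = 2 := by
    rw [card_insert_of_notMem hne, card_singleton]
  have h0 : L G r {f v} 0 := by
    intro s hs
    simp only [mem_singleton] at hs
    simp [hs]
  have h1 := grow hG r hS _ _ le_rfl hsub hc.ge (by
    rw [hc]
    exact L_insert hG h0 (mem_singleton_self _) (dist_eq_one_iff_adj.2 (hf2 (f v)).symm).le)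
  have h2 := h1 (fun i => f (x i)) (fun i => hf1 _)
  have h3 : ∀ i j, G.dist (x i) (x j) ≤ G.dist (f (x i)) (f (x j)) + (if i = j then 0 else 2) := by
    intro i j
    by_cases h : i = j
    · simp [h]
    · have a1 := hG.dist_triangle (u := x i) (v := f (x i)) (w := x j)
      have a2 := hG.dist_triangle (u := f (x i)) (v := f (x j)) (w := x j)
      rw [dist_eq_one_iff_adj.2 (hf2 (x i))] at a1
      rw [dist_eq_one_iff_adj.2 (hf2 (x j)).symm] at a2
      simp only [h, if_false]
      omega
  have h4 := sum_le_sum (s := univ) (fun i _ => sum_le_sum (s := univ) (fun j _ => h3 i j))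
  simp only [sum_add_distrib] at h4
  rw [offdiag, two_distSum] at h4
  have h5 := card_le_card hsub
  rw [hc] at h5
  obtain ⟨g, hg⟩ := Nat.exists_eq_add_of_le h5
  have h6 : 3 * (r ^ 2 / 4) ≤ r * (r - 1) := by
    rcases hr.eq_or_lt with rfl | h
    · norm_num
    · obtain ⟨e, rfl⟩ : ∃ e, r = e + 4 := ⟨r - 4, by omega⟩
      have := Nat.div_mul_le_self ((e + 4) ^ 2) 4
      rw [show e + 4 - 1 = e + 3 by omega]
      nlinarith
  rw [hg, show 2 * (2 + g) - 3 = 2 * g + 1 by omega] at h2
  rw [hg]
  nlinarith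

def DS (r : ℕ) : SimpleGraph (Fin r ⊕ Bool) where
  Adj
    | .inl _, .inl _ => False
    | .inl i, .inr b => b = decide (i.val < r / 2)
    | .inr b, .inl i => b = decide (i.val < r / 2)
    | .inr b, .inr c => b ≠ c
  symm := ⟨by rintro (a | a) (b | b) h <;> first | exact h | exact Ne.symm h⟩
  loopless := ⟨by rintro (a | a) h <;> simp at h⟩

theorem DS_conn (r : ℕ) : (DS r).Connected := by
  have h : ∀ b, (DS r).Reachable (.inr b) (.inr true) := by
    rintro (_ | _)
    · exact Adj.reachable (by simp [DS])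
    · rfl
  have h2 : ∀ v, (DS r).Reachable v (.inr true) := by
    rintro (i | b)
    · exact (Adj.reachable (show (DS r).Adj (.inl i) (.inr (decide (i.val < r / 2))) from rfl)).trans
        (h _)
    · exact h b
  haveI : Nonempty (Fin r ⊕ Bool) := ⟨.inr true⟩
  exact ⟨fun u v => (h2 u).trans (h2 v).symm⟩

theorem DS_dist (r : ℕ) (i j : Fin r) :
    (if i = j then 0 else 2) + (if (i.val < r / 2 ↔ j.val < r / 2) then 0 else 1) ≤
      (DS r).dist (.inl i) (.inl j) := by
  let φ : Fin r ⊕ Bool → ℕ := Sum.elim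
    (fun j => (if i = j then 0 else 2) + (if (i.val < r / 2 ↔ j.val < r / 2) then 0 else 1))
    (fun b => if b = decide (i.val < r / 2) then 1 else 2)
  have h1 : ∀ u v, (DS r).Adj u v → φ v ≤ φ u + 1 := by
    rintro (a | a) (b | b) h
    · exact h.elim
    · simp only [φ, Sum.elim_inl, Sum.elim_inr]
      obtain rfl : b = decide (a.val < r / 2) := h
      by_cases e : i = a
      · simp [e]
      · simp only [e, if_false]; split_ifs <;> omega
    · simp only [φ, Sum.elim_inl, Sum.elim_inr]
      obtain rfl : a = decide (b.val < r / 2) := h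
      by_cases e1 : i.val < r / 2 <;> by_cases e2 : b.val < r / 2 <;> simp [e1, e2] <;>
        split_ifs <;> omega
    · simp only [φ, Sum.elim_inr]
      split_ifs <;> omega
  have h2 : ∀ {u v} (w : (DS r).Walk u v), φ v ≤ φ u + w.length := by
    intro u v w
    induction w with
    | nil => simp
    | cons h _ ih => have := h1 _ _ h; simp only [Walk.length_cons]; omega
  obtain ⟨w, hw⟩ := ((DS_conn r).preconnected (.inl i) (.inl j)).exists_walk_length_eq_dist
  have := h2 w
  simpa [φ, hw] using this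

theorem result (r : ℕ) (hr : 3 ≤ r) : IsGreatest {c : ℝ | Admissible r c}
    (if Even r then 8 / (5 * (r : ℝ) ^ 2 - 4 * r) else 8 / (5 * (r : ℝ) ^ 2 - 4 * r - 1)) := by
  classical
  set N := r ^ 2 / 4 + r * (r - 1) with hN
  have hN0 : 0 < N := by
    have : 0 < r * (r - 1) := Nat.mul_pos (by omega) (by omega)
    omega
  have hN0' : (0 : ℝ) < N := by exact_mod_cast hN0
  have hval : (if Even r then 8 / (5 * (r : ℝ) ^ 2 - 4 * r)
      else 8 / (5 * (r : ℝ) ^ 2 - 4 * r - 1)) = 2 / (N : ℝ) := by
    have hc : ((r - 1 : ℕ) : ℝ) = r - 1 := by rw [Nat.cast_sub (by omega)]; simp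
    split_ifs with h
    · obtain ⟨t, rfl⟩ := h
      have : (t + t) ^ 2 / 4 = t ^ 2 := by rw [show (t + t) ^ 2 = 4 * t ^ 2 by ring]; simp
      have e : 5 * ((t + t : ℕ) : ℝ) ^ 2 - 4 * ((t + t : ℕ) : ℝ) = 4 * (N : ℝ) := by
        rw [hN, this]; push_cast at hc ⊢; rw [hc]; ring
      rw [e]; field_simp; norm_num
    · obtain ⟨t, rfl⟩ := Nat.not_even_iff_odd.1 h
      have : (2 * t + 1) ^ 2 / 4 = t ^ 2 + t := by
        rw [show (2 * t + 1) ^ 2 = 4 * (t ^ 2 + t) + 1 by ring]; omega
      have e : 5 * ((2 * t + 1 : ℕ) : ℝ) ^ 2 - 4 * ((2 * t + 1 : ℕ) : ℝ) - 1 = 4 * (N : ℝ) := by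
        rw [hN, this]; push_cast at hc ⊢; ring
      rw [e]; field_simp; norm_num
  rw [hval]
  constructor
  · intro V _ _ G hG x
    have hne : {n | ∃ S : Finset V, IsTDS G S ∧ S.card = n}.Nonempty := by
      refine ⟨_, univ, fun v => ?_, rfl⟩
      obtain ⟨w, hw⟩ := hG.preconnected.exists_adj_of_nontrivial v
      exact ⟨w, mem_univ _, hw⟩
    obtain ⟨S, hS, hc⟩ := Nat.sInf_mem hne
    have := upper hG hr hS x
    rw [gammaT, ← hc, div_mul_eq_mul_div, div_le_iff₀ hN0']
    exact_mod_cast this
  · intro c hc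
    haveI : Nontrivial (Fin r ⊕ Bool) := ⟨⟨.inr true, .inr false, by simp⟩⟩
    have h1 := hc (Fin r ⊕ Bool) (DS r) (DS_conn r) Sum.inl
    have h2 : gammaT (DS r) ≤ 2 := Nat.sInf_le ⟨{.inr true, .inr false}, by
      rintro (i | b)
      · refine ⟨.inr (decide (i.val < r / 2)), ?_, rfl⟩
        cases decide (i.val < r / 2) <;> simp
      · refine ⟨.inr (!b), ?_, ?_⟩
        · cases b <;> simp
        · cases b <;> simp [DS], by simp⟩
    have h3 := sum_le_sum (s := univ) (fun i _ => sum_le_sum (s := univ) (fun j _ => DS_dist r i j))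
    simp only [sum_add_distrib] at h3
    rw [offdiag, two_distSum (DS r) Sum.inl, cut_count (fun i : Fin r => i.val < r / 2)] at h3
    have h4 : (univ.filter (fun i : Fin r => i.val < r / 2)).card = r / 2 := by
      rw [Fin.card_filter_val_lt]; omega
    have h5 : r / 2 * (r - r / 2) = r ^ 2 / 4 := by
      rcases Nat.even_or_odd' r with ⟨t, rfl | rfl⟩
      · rw [show (2 * t) ^ 2 = 4 * (t * t) by ring, show 2 * t / 2 = t by omega,
          show 2 * t - t = t by omega]; omega
      · rw [show (2 * t + 1) ^ 2 = 4 * (t * (t + 1)) + 1 by ring, show (2 * t + 1) / 2 = t by omega,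
          show 2 * t + 1 - t = t + 1 by omega]; omega
    rw [h4, h5] at h3
    have h6 : (N : ℝ) ≤ distSum (DS r) Sum.inl := by exact_mod_cast (by omega : N ≤ _)
    have h7 : (gammaT (DS r) : ℝ) ≤ 2 := by exact_mod_cast h2
    rw [le_div_iff₀ hN0']
    rcases le_total c 0 with h | h
    · nlinarith
    · nlinarith

end Pool.Agent.Results.MP_95a65f_co.Exact
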